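import Pool.Agent.X35.GM.Vec

/-!
# Koblitz' condition at `s` consecutive primes, for ALL members near `α v_i` of all one-parameter families of elliptic curves,
outside a set of `α` of small dimension
-/

set_option autoImplicit false

namespace Pool.Agent.Results.MP_b89fd0_nt.PrimeOrdersAlongSequences

open Finset Polynomial

/-- The number of points of `y² = x³ + A x + B` over `𝔽_p`, including the point at infinity. -/
def order (p : ℕ) (A B : ℤ) : ℕ :=
  ((range p ×ˢ range p).filter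
    (fun xy : ℕ × ℕ => (p : ℤ) ∣ (xy.2 : ℤ) ^ 2 - ((xy.1 : ℤ) ^ 3 + A * xy.1 + B))).card + 1

/-- `p` does not divide `2 (4 A³ + 27 B²)`, and the order of the group `E(𝔽_p)` of `E : y² = x³ + A x + B` divided by `t` is a prime number. -/
def PrimeQuotient (t : ℕ) (A B : ℤ) (p : ℕ) : Prop :=
  ¬ (p : ℤ) ∣ 2 * (4 * A ^ 3 + 27 * B ^ 2) ∧ ∃ q : ℕ, q.Prime ∧ order p A B = t * q

open Classical in
/-- The number of the `k < K` such that for all `i < s` the order of `E(𝔽_p)` divided by `t_i` is a prime number, `p` the prime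
with the number `k + i` (the primes are numbered from `0`), `E : y² = x³ + A x + B`. -/
noncomputable def count {s : ℕ} (t : Fin s → ℕ) (A B : ℤ) (K : ℕ) : ℕ :=
  ((range K).filter (fun k => ∀ i : Fin s, PrimeQuotient (t i) A B (Nat.nth Nat.Prime (k + i)))).card

open Classical in
/-- The proportion of the residues `u` modulo `p` such that `y² = x³ + a(u) x + b(u)` has the property `PrimeQuotient` at `p`. -/
noncomputable def proportion (t : ℕ) (a b : ℤ[X]) (p : ℕ) : ℝ :=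
  ((range p).filter (fun u : ℕ => PrimeQuotient t (a.eval (u : ℤ)) (b.eval (u : ℤ)) p)).card / p

/-- The expected number: the sum over `k < K` of the product of the proportions at the `s` primes. -/
noncomputable def expected {s : ℕ} (t : Fin s → ℕ) (a b : ℤ[X]) (K : ℕ) : ℝ :=
  ∑ k ∈ range K, ∏ i : Fin s, proportion (t i) a b (Nat.nth Nat.Prime (k + i))

theorem order_congr (p : ℕ) {A A' B B' : ℤ} (hA : (p : ℤ) ∣ A - A') (hB : (p : ℤ) ∣ B - B') :
    order p A B = order p A' B' := by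
  unfold order
  congr 2
  apply filter_congr
  intro xy _
  have h : (p : ℤ) ∣ ((xy.2 : ℤ) ^ 2 - ((xy.1 : ℤ) ^ 3 + A * xy.1 + B)) -
      ((xy.2 : ℤ) ^ 2 - ((xy.1 : ℤ) ^ 3 + A' * xy.1 + B')) := by
    have e : ((xy.2 : ℤ) ^ 2 - ((xy.1 : ℤ) ^ 3 + A * xy.1 + B)) -
      ((xy.2 : ℤ) ^ 2 - ((xy.1 : ℤ) ^ 3 + A' * xy.1 + B')) = -((A - A') * xy.1 + (B - B')) := by ring
    rw [e]
    exact (dvd_add (hA.mul_right _) hB).neg_right
  exact (dvd_iff_dvd_of_dvd_sub h)

theorem pq_congr (t p : ℕ) {A A' B B' : ℤ} (hA : (p : ℤ) ∣ A - A') (hB : (p : ℤ) ∣ B - B') :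
    PrimeQuotient t A B p ↔ PrimeQuotient t A' B' p := by
  unfold PrimeQuotient
  rw [order_congr p hA hB]
  have h : (p : ℤ) ∣ 2 * (4 * A ^ 3 + 27 * B ^ 2) - 2 * (4 * A' ^ 3 + 27 * B' ^ 2) := by
    have e : 2 * (4 * A ^ 3 + 27 * B ^ 2) - 2 * (4 * A' ^ 3 + 27 * B' ^ 2) =
      (A - A') * (8 * (A ^ 2 + A * A' + A' ^ 2)) + (B - B') * (54 * (B + B')) := by ring
    rw [e]
    exact dvd_add (hA.mul_right _) (hB.mul_right _)
  rw [dvd_iff_dvd_of_dvd_sub h]

open Classical in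
/-- the indicators -/
noncomputable def st {s : ℕ} (c : (ℤ[X] × ℤ[X]) × (Fin s → ℕ)) (p n : ℕ) : Fin s → ℝ := fun j =>
  if PrimeQuotient (c.2 j) (c.1.1.eval (n : ℤ)) (c.1.2.eval (n : ℤ)) p then 1 else 0

theorem st_per {s : ℕ} (c : (ℤ[X] × ℤ[X]) × (Fin s → ℕ)) (p n : ℕ) : st c p (n + p) = st c p n := by
  have e : ((n + p : ℕ) : ℤ) - (n : ℤ) = p := by push_cast; ring
  have hd : ∀ f : ℤ[X], (p : ℤ) ∣ f.eval ((n + p : ℕ) : ℤ) - f.eval (n : ℤ) := by
    intro f
    have := f.sub_dvd_eval_sub ((n + p : ℕ) : ℤ) (n : ℤ)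
    rwa [e] at this
  funext j
  have h := pq_congr (c.2 j) p (hd c.1.1) (hd c.1.2)
  unfold st
  by_cases h1 : PrimeQuotient (c.2 j) (c.1.1.eval (n : ℤ)) (c.1.2.eval (n : ℤ)) p
  · rw [if_pos h1, if_pos (h.2 h1)]
  · rw [if_neg h1, if_neg (fun h2 => h1 (h.1 h2))]

/-- the box -/
def bx {s : ℕ} (i j : Fin s) : Set ℝ := if i = j then {1} else Set.univ

theorem bx_ord {s : ℕ} (i j : Fin s) : (bx i j).OrdConnected := by
  unfold bx
  split_ifs
  · exact Set.ordConnected_singleton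
  · exact Set.ordConnected_univ

theorem st_iff {s : ℕ} (c : (ℤ[X] × ℤ[X]) × (Fin s → ℕ)) (p n : ℕ) (i : Fin s) :
    (∀ j, st c p n j ∈ bx i j) ↔ PrimeQuotient (c.2 i) (c.1.1.eval (n : ℤ)) (c.1.2.eval (n : ℤ)) p := by
  unfold st bx
  constructor
  · intro h
    have h1 := h i
    rw [if_pos rfl] at h1
    by_contra hcon
    rw [if_neg hcon] at h1
    simp at h1
  · intro h j
    by_cases hij : i = j
    · subst hij
      rw [if_pos rfl, if_pos h]
      rfl
    · rw [if_neg hij]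
      exact Set.mem_univ _

/-- Let `s ≥ 1` and `δ > 0`. There are `κ > 0` and `C` such that for all reals `v_i ≥ 1` with `∑ v_i ^ (-u) < ∞` for all `u > τ`
(`τ ≥ 0`; for example `v_i = 2 ^ i`, `τ = 0`) and all `θ < 1` there is a set `E` of reals of Hausdorff dimension at most
`(1 - κ + τ) / (1 - θ)` with the following property. For every real `α > 0` outside `E`, ALL polynomials `a, b ∈ ℤ[T]`, all
`t_0, ..., t_(s - 1)`, all `i ≥ i₀(α, a, b, t)`, ALL integers `n` with `|n - α v_i| ≤ v_i ^ θ` and all `K ≤ n ^ κ`: the number of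
the `k < K` such that for `E : y² = x³ + a(n) x + b(n)` and all `j < s` the number `#E(𝔽_p) / t_j` is prime, where `p` is the prime with the
number `k + j`, differs from its expected value by at most `C K ^ (1 / 2 + δ) (1 + log n) ^ (1 / 2)`. -/
theorem result (s : ℕ) (hs : 1 ≤ s) (δ : ℝ) (hδ : 0 < δ) :
    ∃ κ C : ℝ, 0 < κ ∧ 0 < C ∧ ∀ (v : ℕ → ℝ) (τ θ : ℝ), (∀ i, 1 ≤ v i) → 0 ≤ τ → θ < 1 →
      (∀ u : ℝ, τ < u → Summable (fun i => v i ^ (-u))) →
      ∃ E : Set ℝ, dimH E ≤ ENNReal.ofReal ((1 - κ + τ) / (1 - θ)) ∧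
        ∀ α : ℝ, 0 < α → α ∉ E → ∀ (a b : ℤ[X]) (t : Fin s → ℕ), ∃ i₀ : ℕ, ∀ i : ℕ, i₀ ≤ i →
          ∀ n : ℕ, |(n : ℝ) - α * v i| ≤ v i ^ θ → ∀ K : ℕ, (K : ℝ) ≤ (n : ℝ) ^ κ →
            |(count t (a.eval (n : ℤ)) (b.eval (n : ℤ)) K : ℝ) - expected t a b K| ≤
              C * ((K : ℝ) ^ (1 / 2 + δ) * √(1 + Real.log n)) := by
  classical
  obtain ⟨κ, C, h1, _, h3, H⟩ := Pool.Agent.X35.GM.vecB s s hs δ hδ
  refine ⟨κ, C, h1, by linarith, ?_⟩
  intro v τ θ hv1 hτ hθ hv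
  have hc : Countable ℤ[X] := Pool.Agent.X35.GM.countable_int_poly
  obtain ⟨E, hE1, hE2⟩ := H (fun c : (ℤ[X] × ℤ[X]) × (Fin s → ℕ) => st c) st_per v τ θ hv1 hτ hθ hv
  refine ⟨E, hE1, fun α hα hαE a b t => ?_⟩
  obtain ⟨i₀, hi₀⟩ := hE2 α hα hαE ((a, b), t)
  refine ⟨i₀, fun i hi n hn K hK => ?_⟩
  have h := hi₀ i hi n hn K hK bx bx_ord
  have e1 : Pool.Agent.X35.GM.cnt (fun p => st ((a, b), t) p n) bx K = count t (a.eval (n : ℤ)) (b.eval (n : ℤ)) K := by
    unfold Pool.Agent.X35.GM.cnt count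
    congr 1
    ext k
    simp only [mem_filter]
    exact and_congr_right fun _ => forall_congr' fun i => st_iff ((a, b), t) _ n i
  have e2 : Pool.Agent.X35.GM.mdl (st ((a, b), t)) bx K = expected t a b K := by
    unfold Pool.Agent.X35.GM.mdl expected proportion Pool.Agent.X35.GM.prp
    refine sum_congr rfl fun k _ => prod_congr rfl fun i _ => ?_
    congr 3
    ext u
    simp only [mem_filter]
    exact and_congr_right fun _ => st_iff ((a, b), t) _ u i
  rw [e1, e2] at h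
  exact h

end Pool.Agent.Results.MP_b89fd0_nt.PrimeOrdersAlongSequences
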