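import Pool.Agent.TH894.NE4

/-!
# Primes `p` for which `#E(F_p) / t` is prime, for almost all elliptic curves whose two coefficients arise from arbitrary
integers by changing a few digits: all `t` and all arithmetic progressions at once, with the square root of the main term as error

Nothing is used besides Mathlib in the statement.
-/

set_option autoImplicit false

namespace Pool.Agent.Results.MP_b89fd0_nt.PrimeOrdersFewDigitCurves

open Finset

/-- The number of the points of `Y ^ 2 = X ^ 3 + m 0 X + m 1` modulo `p`, including the point at infinity. -/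
def points (p : ℕ) (m : Fin 2 → ℕ) : ℕ :=
  ((range p ×ˢ range p).filter (fun xy => xy.2 ^ 2 % p = (xy.1 ^ 3 + m 0 * xy.1 + m 1) % p)).card + 1

/-- The discriminant `-16 (4 (m 0) ^ 3 + 27 (m 1) ^ 2)` of the curve `Y ^ 2 = X ^ 3 + m 0 X + m 1` is not divisible by `p`, and
`#E(F_p) / t` is a prime number. -/
def PrimeQuotient (p : ℕ) (m : Fin 2 → ℕ) (t : ℕ) : Prop :=
  ¬ p ∣ 2 * (4 * m 0 ^ 3 + 27 * m 1 ^ 2) ∧ ∃ q : ℕ, q.Prime ∧ points p m = t * q

open Classical in
/-- The number of the primes `p ≤ x`, `p ≡ a` modulo `k`, of good reduction of the curve (model) with the coefficients `m` for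
which `#E(F_p) / t` is a prime number. -/
noncomputable def count (m : Fin 2 → ℕ) (t k a x : ℕ) : ℕ :=
  ((range (x + 1)).filter (fun p => p.Prime ∧ p ≡ a [MOD k] ∧ PrimeQuotient p m t)).card

open Classical in
/-- The sum over the primes `p ≤ x`, `p ≡ a` modulo `k`, of the proportion of the curves for which `#E(F_p) / t` is prime among
all pairs of coefficients modulo `p`. -/
noncomputable def expected (t k a x : ℕ) : ℝ :=
  ∑ p ∈ (range (x + 1)).filter (fun p => p.Prime ∧ p ≡ a [MOD k]),
    (((Fintype.piFinset (fun _ : Fin 2 => range p)).filter (fun n => PrimeQuotient p n t)).card : ℝ) / (p : ℝ) ^ 2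

/-- For all `t` and all arithmetic progressions `a` modulo `k` the number of the primes `p ≤ x` in the progression for which
`#E(F_p) / t` is prime differs from the expected number `V` by at most `(max 1 V) ^ (1 / 2) x ^ δ`. -/
noncomputable def Good (δ : ℝ) (x : ℕ) (m : Fin 2 → ℕ) : Prop :=
  ∀ t k a : ℕ, |(count m t k a x : ℝ) - expected t k a x| ≤ Real.sqrt (max 1 (expected t k a x)) * (x : ℝ) ^ δ

/-- The digit number `i` (counted from the right, beginning with `0`) of `n` in base `b`. -/
def digit (b i n : ℕ) : ℕ := n / b ^ i % b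

/-- The number which arises from the number `N` with at most `K` digits in base `b`, if for every `i ∈ S`
the digit number `i` is replaced by `f i`. -/
def change (b K N : ℕ) (f : ℕ → ℕ) (S : Finset ℕ) : ℕ :=
  ∑ i ∈ range K, (if i ∈ S then f i else digit b i N) * b ^ i

open Classical in
/-- The number of the choices of `r l` of `K l` positions for `l = 0, 1` for which the pair of the numbers obtained by
changing the digits of `N 0`, `N 1` at the chosen positions (according to `f 0`, `f 1`) does not have the property `E`. -/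
noncomputable def exceptions (b : ℕ) (K r N : Fin 2 → ℕ) (f : Fin 2 → ℕ → ℕ) (E : (Fin 2 → ℕ) → Prop) : ℕ :=
  ((Fintype.piFinset (fun l => powersetCard (r l) (range (K l)))).filter
    (fun S => ¬ E (fun l => change b (K l) (N l) (f l) (S l)))).card

lemma points_mod (p : ℕ) (m : Fin 2 → ℕ) : points p (fun i => m i % p) = points p m := by
  unfold points
  congr 2
  apply filter_congr
  intro xy _
  have h : xy.1 ^ 3 + m 0 % p * xy.1 + m 1 % p ≡ xy.1 ^ 3 + m 0 * xy.1 + m 1 [MOD p] :=
    (((Nat.mod_modEq (m 0) p).mul_right xy.1).add_left (xy.1 ^ 3)).add (Nat.mod_modEq (m 1) p)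
  rw [h]

lemma points_le (p : ℕ) (m : Fin 2 → ℕ) : points p m ≤ p * p + 1 := by
  unfold points
  apply Nat.succ_le_succ
  refine (card_filter_le _ _).trans ?_
  rw [card_product, card_range]

lemma pq_mod (p : ℕ) (m : Fin 2 → ℕ) (t : ℕ) : PrimeQuotient p m t ↔ PrimeQuotient p (fun i => m i % p) t := by
  unfold PrimeQuotient
  rw [points_mod]
  have h : 2 * (4 * (m 0 % p) ^ 3 + 27 * (m 1 % p) ^ 2) ≡ 2 * (4 * m 0 ^ 3 + 27 * m 1 ^ 2) [MOD p] :=
    ((((Nat.mod_modEq (m 0) p).pow 3).mul_left 4).add (((Nat.mod_modEq (m 1) p).pow 2).mul_left 27)).mul_left 2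
  rw [h.dvd_iff dvd_rfl]

/-- Let a base `b ≥ 2`, `δ > 0` and an integer `A ≥ 0` be given. There are `c > 0` and `y₀` such that for all integers
`r 0`, `r 1`, `K 0`, `K 1`, `y` with `2 r l ≤ K l` and `y ≥ y₀` the following holds.

Let `0 ≤ N l < b ^ K l` be arbitrary integers and prescribe for every position `j` a digit `f l j` different from the digit of
`N l` in base `b` (`l = 0, 1`). If one chooses `r l` of the `K l` positions and replaces the digits of `N l` at these positions, then
for all but at most a proportion `1 / y ^ A` of the choices the curve `Y ^ 2 = X ^ 3 + m 0 X + m 1` with the numbers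
`m 0`, `m 1` obtained has the following property: for all integers `x` with `y ≤ x ≤ exp (c r l)` (`l = 0, 1`), all integers
`t ≥ 0` and all arithmetic progressions `a` modulo `k` the number of the primes `p ≤ x` in the progression, not dividing the discriminant,
for which `#E(F_p) / t` is a prime number differs from its expected value `V` (the sum over the primes
`p ≤ x` in the progression of the proportion of the pairs of coefficients modulo `p` with this property) by at most `(max 1 V) ^ (1 / 2) x ^ δ`. -/
theorem result (b : ℕ) (hb : 2 ≤ b) (δ : ℝ) (hδ : 0 < δ) (A : ℕ) : ∃ c : ℝ, 0 < c ∧ ∃ y₀ : ℕ,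
    ∀ (K r : Fin 2 → ℕ) (y : ℕ), (∀ l, 2 * r l ≤ K l) → y₀ ≤ y →
    ∀ N : Fin 2 → ℕ, (∀ l, N l < b ^ K l) → ∀ f : Fin 2 → ℕ → ℕ, (∀ l j, f l j < b ∧ f l j ≠ digit b j (N l)) →
      (exceptions b K r N f (fun m => ∀ x : ℕ, y ≤ x → (∀ l, (x : ℝ) ≤ Real.exp (c * r l)) → Good δ x m) : ℝ) ≤
        1 / (y : ℝ) ^ A * ∏ l, ((K l).choose (r l) : ℝ) := by
  classical
  obtain ⟨c, hc, x₀, h⟩ := Pool.Agent.TH894.NE.law2 b 2 hb (by norm_num) δ A 8 hδ
  refine ⟨c, hc, x₀ + 3, fun K r y hrK hy N hN f hf => ?_⟩
  have hy0 : (0 : ℝ) < y := by exact_mod_cast (by omega : 0 < y)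
  have h1 : 1 / (y : ℝ) ^ A = (y : ℝ) ^ (-(A : ℝ)) := by
    rw [Real.rpow_neg hy0.le, Real.rpow_natCast, one_div]
  rw [h1]
  unfold exceptions
  refine h r K y hrK (by omega) N hN f hf (ℕ × ℕ × ℕ)
    (fun x => if x < 2 then ∅ else (range (x ^ 2 + 2)) ×ˢ ((range (x + 1)) ×ˢ (range (x + 1)))) ?_ ℕ
    (fun x l => (range (x + 1)).filter (fun p => p.Prime ∧ p ≡ l.2.2 [MOD l.2.1])) (fun _ p => p) ?_ ?_
    (fun l p m => PrimeQuotient p m l.1) ?_ _ (filter_subset _ _) ?_
  · intro x _
    show (((if x < 2 then ∅ else (range (x ^ 2 + 2)) ×ˢ ((range (x + 1)) ×ˢ (range (x + 1)))) : Finset (ℕ × ℕ × ℕ)).card : ℝ) ≤ _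
    split_ifs with hx
    · rw [card_empty, Nat.cast_zero]
      positivity
    · push Not at hx
      rw [card_product, card_product, card_range, card_range, show (8 : ℝ) = ((8 : ℕ) : ℝ) by norm_num, Real.rpow_natCast]
      have e1 : x ^ 2 + 2 ≤ x ^ 4 := by nlinarith [sq_nonneg (x ^ 2 : ℤ), Nat.pow_le_pow_left hx 2]
      have e2 : x + 1 ≤ x ^ 2 := by nlinarith
      have e3 : (x ^ 2 + 2) * ((x + 1) * (x + 1)) ≤ x ^ 4 * (x ^ 2 * x ^ 2) := Nat.mul_le_mul e1 (Nat.mul_le_mul e2 e2)
      have e4 : x ^ 4 * (x ^ 2 * x ^ 2) = x ^ 8 := by ring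
      rw [e4] at e3
      exact_mod_cast e3
  · intro x l _ p hp
    rw [mem_filter, mem_range] at hp
    exact ⟨hp.2.1.one_lt.le, by omega⟩
  · intro x l _ p hp p' hp' hne
    rw [mem_filter] at hp hp'
    exact (Nat.coprime_primes hp.2.1 hp'.2.1).2 hne
  · intro x l _ p _ m
    exact pq_mod p m l.1
  · intro S hS
    rw [mem_filter] at hS
    obtain ⟨_, hS2⟩ := hS
    unfold Good at hS2
    push Not at hS2
    obtain ⟨x, hyx, hxr, t, k, a, hlt⟩ := hS2
    have hx0 : (0 : ℝ) < x := by exact_mod_cast (by omega : 0 < x)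
    have hx1 : (1 : ℝ) ≤ x := by exact_mod_cast (by omega : 1 ≤ x)
    obtain ⟨m, hm⟩ : ∃ m : Fin 2 → ℕ, m = fun l => change b (K l) (N l) (f l) (S l) := ⟨_, rfl⟩
    have hxd : (1 : ℝ) ≤ (x : ℝ) ^ δ := Real.one_le_rpow hx1 hδ.le
    have hPr : ∀ (t p : ℕ), (((Fintype.piFinset (fun _ : Fin 2 => range p)).filter (fun n => PrimeQuotient p n t)).card : ℝ) / (p : ℝ) ^ 2 =
        Pool.Agent.TH894.NE.Pr 2 p (fun n => PrimeQuotient p n t) := by
      intro t p
      unfold Pool.Agent.TH894.NE.Pr Pool.Agent.TH894.NE.box
      rfl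
    have hexp : ∀ t k a : ℕ, expected t k a x = ∑ p ∈ (range (x + 1)).filter (fun p => p.Prime ∧ p ≡ a [MOD k]),
        Pool.Agent.TH894.NE.Pr 2 p (fun n => PrimeQuotient p n t) := by
      intro t k a
      unfold expected
      exact sum_congr rfl (fun p _ => hPr t p)
    have hcount : ∀ t k a : ℕ, (count m t k a x : ℝ) =
        ((((range (x + 1)).filter (fun p => p.Prime ∧ p ≡ a [MOD k])).filter (fun p => PrimeQuotient p m t)).card : ℝ) := by
      intro t k a
      unfold count
      rw [filter_filter]
      congr 2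
      apply filter_congr
      intro p _
      tauto
    rw [← hm] at hlt
    -- reduce to `1 ≤ k ≤ x`, `a ≤ x`
    have hk : ∃ k' a' : ℕ, k' ≤ x ∧ a' ≤ x ∧ count m t k a x = count m t k' a' x ∧ expected t k a x = expected t k' a' x := by
      by_cases hkx : 1 ≤ k ∧ k ≤ x
      · refine ⟨k, a % k, hkx.2, ((Nat.mod_lt a (by omega)).le.trans hkx.2), ?_, ?_⟩
        · unfold count
          congr 1
          apply filter_congr
          intro p _
          unfold Nat.ModEq
          rw [Nat.mod_mod]
        · unfold expected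
          congr 1
          apply filter_congr
          intro p _
          unfold Nat.ModEq
          rw [Nat.mod_mod]
      · exfalso
        -- at most one prime
        have hone : ((range (x + 1)).filter (fun p => p.Prime ∧ p ≡ a [MOD k])).card ≤ 1 := by
          rw [card_le_one]
          intro p hp p' hp'
          rw [mem_filter, mem_range] at hp hp'
          have h2 : p ≡ p' [MOD k] := hp.2.2.trans hp'.2.2.symm
          unfold Nat.ModEq at h2
          by_cases hk0 : k = 0
          · rw [hk0, Nat.mod_zero, Nat.mod_zero] at h2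
            exact h2
          · rw [Nat.mod_eq_of_lt (by omega), Nat.mod_eq_of_lt (by omega)] at h2
            exact h2
        have h3 : (count m t k a x : ℝ) ≤ 1 := by
          rw [hcount]
          exact_mod_cast (card_filter_le _ _).trans hone
        have h4 : expected t k a x ≤ 1 := by
          rw [hexp]
          refine (sum_le_sum (fun p _ => Pool.Agent.TH894.NE.Pr_le_one 2 p _)).trans ?_
          rw [sum_const, nsmul_eq_mul, mul_one]
          exact_mod_cast hone
        have h5 : 0 ≤ expected t k a x := by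
          rw [hexp]
          exact sum_nonneg (fun p _ => Pool.Agent.TH894.NE.Pr_nonneg 2 p _)
        have h6 : |(count m t k a x : ℝ) - expected t k a x| ≤ 1 := by
          have h7 : (0 : ℝ) ≤ count m t k a x := Nat.cast_nonneg _
          rw [abs_le]
          constructor <;> linarith
        have h8 : 1 ≤ Real.sqrt (max 1 (expected t k a x)) := by
          rw [Real.one_le_sqrt]
          exact le_max_left _ _
        nlinarith
    obtain ⟨k', a', hk', ha', hc1, hc2⟩ := hk
    rw [hc1, hc2] at hlt
    refine ⟨x, hyx, fun l => (Real.log_le_iff_le_exp hx0).2 (hxr l), (t, k', a'), ?_, ?_⟩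
    · show (t, k', a') ∈ (if x < 2 then ∅ else (range (x ^ 2 + 2)) ×ˢ ((range (x + 1)) ×ˢ (range (x + 1))))
      rw [if_neg (by omega), mem_product, mem_product, mem_range, mem_range, mem_range]
      refine ⟨?_, by show k' < x + 1; omega, by show a' < x + 1; omega⟩
      show t < x ^ 2 + 2
      by_contra hcon
      have hno : ∀ p ∈ range (x + 1), ∀ n, ¬ PrimeQuotient p n t := by
        intro p hp n hn
        rw [mem_range] at hp
        obtain ⟨_, q, hq, hpt⟩ := hn
        have h2 := points_le p n
        have h3 : p * p ≤ x ^ 2 := by rw [sq]; exact Nat.mul_le_mul (by omega) (by omega)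
        have h4 : t * 1 ≤ t * q := Nat.mul_le_mul_left t hq.one_lt.le
        omega
      have h9 : count m t k' a' x = 0 := by
        unfold count
        rw [card_eq_zero, filter_eq_empty_iff]
        intro p hp hp2
        exact hno p hp m hp2.2.2
      have h10 : expected t k' a' x = 0 := by
        unfold expected
        apply sum_eq_zero
        intro p hp
        have h11 : (Fintype.piFinset (fun _ : Fin 2 => range p)).filter (fun n => PrimeQuotient p n t) = ∅ := by
          rw [filter_eq_empty_iff]
          intro n _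
          exact hno p (mem_filter.1 hp).1 n
        rw [h11, card_empty, Nat.cast_zero, zero_div]
      rw [h9, h10] at hlt
      simp at hlt
      linarith
    · rw [hcount, hexp, hm] at hlt
      exact hlt

end Pool.Agent.Results.MP_b89fd0_nt.PrimeOrdersFewDigitCurves
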