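import Pool.Agent.X20.Tr.Law
import Pool.Agent.X35.GV.Curve
import Pool.Agent.X35.GM.Seq2

/-!
# Primes `p` with `#E(𝔽_p) / t` prime for the members of ALL systems of one-parameter families of elliptic curves
at almost all of the integers `h ± ⌊α n ^ c⌋`
-/

set_option autoImplicit false

namespace Pool.Agent.Results.MP_b89fd0_nt.SparseMembers

open Finset Polynomial

/-- The number of the solutions `(x, y)` of `y² = x³ + A x + B` modulo `p`. -/
def points (p : ℕ) (A B : ℤ) : ℕ :=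
  ((range p ×ˢ range p).filter
    (fun xy : ℕ × ℕ => (p : ℤ) ∣ (xy.2 : ℤ) ^ 2 - ((xy.1 : ℤ) ^ 3 + A * xy.1 + B))).card

/-- `p` does not divide `2 (4 A³ + 27 B²)`, and `#E(𝔽_p) / t`, `#E(𝔽_p) = points p A B + 1`, is a prime number for `E : y² = x³ + A x + B`. -/
def PrimeQuotient (p : ℕ) (t : ℕ) (A B : ℤ) : Prop :=
  ¬ (p : ℤ) ∣ 2 * (4 * A ^ 3 + 27 * B ^ 2) ∧ ∃ l : ℕ, l.Prime ∧ points p A B + 1 = t * l

/-- At the integer `m`, all the curves `E_j : y² = x³ + f_j(m) x + g_j(m)` (`j = 1, ..., r`, `w j = (f_j, g_j)`) have `#E_j(𝔽_p) / t_j`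
prime. -/
def PrimeQuotients {r : ℕ} (p : ℕ) (t : Fin r → ℕ) (w : Fin r → ℤ[X] × ℤ[X]) (m : ℤ) : Prop :=
  ∀ j, PrimeQuotient p (t j) ((w j).1.eval m) ((w j).2.eval m)

open Classical in
/-- The number of the primes `p ≤ x` in `P` at which the curves `E_j : y² = x³ + f_j(m) x + g_j(m)` have good reduction (of these models,
`p` odd) and `#E_j(𝔽_p) / t_j` is prime, for all `j`. -/
noncomputable def count {r : ℕ} (P : Set ℕ) (w : Fin r → ℤ[X] × ℤ[X]) (m : ℤ) (t : Fin r → ℕ) (x : ℕ) : ℕ :=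
  (((range (x + 1)).filter (fun p => p.Prime ∧ p ∈ P)).filter (fun p => PrimeQuotients p t w m)).card

open Classical in
/-- The proportion of the residues `u` modulo `p` such that the curves of the system at `u` have the property `PrimeQuotient` for the
`t_j`. -/
noncomputable def proportion {r : ℕ} (w : Fin r → ℤ[X] × ℤ[X]) (p : ℕ) (t : Fin r → ℕ) : ℝ :=
  (((range p).filter (fun u : ℕ => PrimeQuotients p t w u)).card : ℝ) / p

open Classical in
/-- The expected number: the sum of these proportions over the primes `p ≤ x` in `P`. -/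
noncomputable def expected {r : ℕ} (P : Set ℕ) (w : Fin r → ℤ[X] × ℤ[X]) (t : Fin r → ℕ) (x : ℕ) : ℝ :=
  ∑ p ∈ (range (x + 1)).filter (fun p => p.Prime ∧ p ∈ P), proportion w p t

/-- For some integer `x` with `(log |m|) ^ C ≤ x ≤ |m| ^ κ` and some integers `t_1, ..., t_r ≥ 0` the number of the primes `p ≤ x` in `P`
at which `#E_j(𝔽_p) / t_j` is prime for the curves of the system at `m` differs from its expected value `V` by more than
`(max 1 V) ^ (1 / 2) x ^ δ`. -/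
def Irregular {r : ℕ} (P : Set ℕ) (w : Fin r → ℤ[X] × ℤ[X]) (δ C κ : ℝ) (m : ℤ) : Prop :=
  ∃ x : ℕ, (Real.log |(m : ℝ)|) ^ C ≤ x ∧ (x : ℝ) ≤ |(m : ℝ)| ^ κ ∧ ∃ t : Fin r → ℕ,
    √(max 1 (expected P w t x)) * (x : ℝ) ^ δ < |(count P w m t x : ℝ) - expected P w t x|

theorem points_eq (p : ℕ) (A B : ℤ) : points p A B = Pool.Agent.X35.GV.points p A B := rfl

lemma pq_congr (p : ℕ) (t : ℕ) {A A' B B' : ℤ} (hA : A ≡ A' [ZMOD p]) (hB : B ≡ B' [ZMOD p]) :
    PrimeQuotient p t A B ↔ PrimeQuotient p t A' B' := by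
  unfold PrimeQuotient
  rw [points_eq, points_eq, Pool.Agent.X35.GV.points_congr p hA hB, Pool.Agent.X35.GV.disc_congr p hA hB]

lemma t_le {p x : ℕ} (hp : p ≤ x) {t : ℕ} {A B : ℤ} (h : PrimeQuotient p t A B) : t ≤ x ^ 2 + 1 := by
  have h1 := Pool.Agent.X35.GV.points_le p A B
  rw [← points_eq] at h1
  obtain ⟨-, l, hl, h2⟩ := h
  have h3 : t * 1 ≤ t * l := Nat.mul_le_mul_left t hl.one_lt.le
  have h4 : p * p ≤ x ^ 2 := by rw [sq]; exact Nat.mul_le_mul hp hp
  omega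

lemma card_Λ (r x : ℕ) (hx : 2 ≤ x) :
    (((Fintype.piFinset (fun _ : Fin r => range (x ^ 2 + 2))).card : ℕ) : ℝ) ≤ (x : ℝ) ^ (4 * (r : ℝ)) := by
  have hxr : (2 : ℝ) ≤ x := by exact_mod_cast hx
  rw [Fintype.card_piFinset, prod_const, card_univ, Fintype.card_fin, card_range]
  push_cast
  rw [show (4 * (r : ℝ)) = ((4 * r : ℕ) : ℝ) by push_cast; ring, Real.rpow_natCast, pow_mul]
  apply pow_le_pow_left₀ (by positivity)
  have e3 : (4 : ℝ) ≤ (x : ℝ) ^ 2 := by nlinarith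
  nlinarith

open Classical in
/-- Let `c > 1`. There is `κ₀ > 0` such that for every sequence `P_0, P_1, ...` of sets of primes there is a set `E` of reals of Hausdorff
dimension at most `1 - κ₀` with the following property. For every `r` and every `δ > 0` there are `C, κ > 0` such that for every real
`α > 0` outside `E`, ALL polynomials `f_1, g_1, ..., f_r, g_r ∈ ℤ[T]`, every set `P = P_k`, every integer `h` and every sign `s`, for all
large `N`, all but at most `N ^ (1 - κ)` of the `n ≤ N` have, for `m = h + s ⌊α n ^ c⌋`: for ALL integers `x` with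
`(log |m|) ^ C ≤ x ≤ |m| ^ κ` and ALL integers `t_1, ..., t_r ≥ 0` the number of the primes `p ≤ x` in `P` such that
`#E_j(𝔽_p) / t_j` is prime for all the curves `E_j : y² = x³ + f_j(m) x + g_j(m)` differs from its expected value `V` (the sum over
`p ≤ x` in `P` of the proportion of the residues `u` modulo `p` at which the curves of the system have this property) by at most
`(max 1 V) ^ (1 / 2) x ^ δ`. -/
theorem result (c : ℝ) (hc : 1 < c) : ∃ κ₀ : ℝ, 0 < κ₀ ∧ κ₀ < 1 ∧ ∀ P : ℕ → Set ℕ,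
    ∃ E : Set ℝ, dimH E ≤ ENNReal.ofReal (1 - κ₀) ∧ ∀ (r : ℕ) (δ : ℝ), 0 < δ → ∃ C κ : ℝ, 0 < C ∧ 0 < κ ∧
      ∀ α : ℝ, 0 < α → α ∉ E → ∀ (w : Fin r → ℤ[X] × ℤ[X]) (k : ℕ) (h s : ℤ), (s = 1 ∨ s = -1) → ∃ N₀ : ℕ,
        ∀ N : ℕ, N₀ ≤ N → (((Icc 1 N).filter (fun n : ℕ => Irregular (P k) w δ C κ
          (h + s * ((⌊α * (n : ℝ) ^ c⌋₊ : ℕ) : ℤ)))).card : ℝ) ≤ (N : ℝ) ^ (1 - κ) := by
  obtain ⟨κ₀, hκ0, hκ1, H⟩ := Pool.Agent.X20.Tr.lawSparse c hc
  refine ⟨κ₀, hκ0, hκ1, fun P => ?_⟩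
  have := Pool.Agent.X35.GM.countable_int_poly
  choose E hE1 hE2 using fun r : ℕ => H (4 * (r : ℝ)) 1 le_rfl ((Fin r → ℤ[X] × ℤ[X]) × ℕ) (Fin r → ℕ)
    (fun _ x => Fintype.piFinset (fun _ => range (x ^ 2 + 2)))
    (fun _ x hx => card_Λ r x hx) ℕ (fun i x _ => (range (x + 1)).filter (fun p => p.Prime ∧ p ∈ P i.2)) (fun _ _ p => p)
    (by
      intro i x l _ p hp
      rw [mem_filter, mem_range] at hp
      exact ⟨hp.2.1.two_le, by rw [pow_one]; omega⟩)
    (by
      intro i x l _ p hp p' hp' hne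
      rw [mem_filter] at hp hp'
      exact (Nat.coprime_primes hp.2.1 hp'.2.1).2 hne)
    (fun i t p n => PrimeQuotients p t i.1 n)
    (by
      intro i x t _ p _ m m' h
      have h' : m ≡ m' [ZMOD p] := h
      have hp : ∀ F : ℤ[X], F.eval m ≡ F.eval m' [ZMOD p] := by
        intro F
        rw [Int.modEq_iff_dvd]
        exact (Int.modEq_iff_dvd.1 h').trans (Polynomial.sub_dvd_eval_sub m' m F)
      exact forall_congr' fun j => pq_congr p (t j) (hp _) (hp _))
  refine ⟨⋃ r, E r, ?_, fun r δ hδ => ?_⟩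
  · rw [dimH_iUnion]
    exact iSup_le hE1
  obtain ⟨C, κ, hC, hκ, h2⟩ := hE2 r δ hδ
  refine ⟨C, κ, hC, hκ, fun α hα hαE w k h s hs => ?_⟩
  obtain ⟨N₀, hN₀⟩ := h2 α hα (fun hmem => hαE (Set.mem_iUnion.2 ⟨r, hmem⟩)) (w, k) h s hs
  refine ⟨N₀, fun N hN => le_trans ?_ (hN₀ N hN)⟩
  rw [Nat.cast_le]
  refine card_le_card fun n hn => ?_
  replace hn := Pool.Agent.X20.Tr.mem_filt.1 hn
  refine Pool.Agent.X20.Tr.mem_filt.2 ⟨hn.1, ?_⟩
  obtain ⟨x, hx1, hx2, t, hlt⟩ := hn.2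
  refine ⟨x, hx1, hx2, t, ?_, ?_⟩
  · rw [Fintype.mem_piFinset]
    by_contra hcon
    push Not at hcon
    obtain ⟨j, hj⟩ := hcon
    have hno : ∀ p ∈ (range (x + 1)).filter (fun p => p.Prime ∧ p ∈ P k), ∀ m : ℤ, ¬ PrimeQuotients p t w m := by
      intro p hp m h
      rw [mem_filter, mem_range] at hp
      apply hj
      rw [mem_range]
      have := t_le (by omega : p ≤ x) (h j)
      omega
    have h1 : ∀ m : ℤ, count (P k) w m t x = 0 := by
      intro m
      unfold count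
      rw [card_eq_zero, filter_eq_empty_iff]
      intro p hp h
      exact hno p hp _ h
    have h2 : expected (P k) w t x = 0 := by
      unfold expected
      refine sum_eq_zero fun p hp => ?_
      unfold proportion
      rw [filter_false_of_mem (fun u _ => hno p hp _), card_empty, Nat.cast_zero, zero_div]
    rw [h1, h2, Nat.cast_zero, sub_self, abs_zero] at hlt
    have : (0 : ℝ) ≤ √(max 1 0) * (x : ℝ) ^ δ := by positivity
    linarith
  · exact hlt

end Pool.Agent.Results.MP_b89fd0_nt.SparseMembers
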