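import Pool.Agent.X35.GV.Pairs
import Pool.Agent.X35.GV.Curve

/-!
# Primes `p` with `#E(𝔽_p) / t` prime for almost all elliptic curves (and almost all `r`-tuples of elliptic curves) with coefficients in
arbitrary boxes: all `t` and all `x` at once, square-root error, power saving exceptional set
-/

set_option autoImplicit false

namespace Pool.Agent.Results.MP_b89fd0_nt.UniformQuotients

open Finset

/-- The number of the solutions `(x, y)` of `y² = x³ + A x + B` modulo `p`. -/
def points (p : ℕ) (A B : ℤ) : ℕ :=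
  ((range p ×ˢ range p).filter
    (fun xy : ℕ × ℕ => (p : ℤ) ∣ (xy.2 : ℤ) ^ 2 - ((xy.1 : ℤ) ^ 3 + A * xy.1 + B))).card

/-- `p` does not divide `2 (4 A³ + 27 B²)`, and `#E(𝔽_p) / t`, `#E(𝔽_p) = points p A B + 1`, is a prime number for `E : y² = x³ + A x + B`. -/
def PrimeQuotient (p : ℕ) (t : ℕ) (A B : ℤ) : Prop :=
  ¬ (p : ℤ) ∣ 2 * (4 * A ^ 3 + 27 * B ^ 2) ∧ ∃ l : ℕ, l.Prime ∧ points p A B + 1 = t * l

open Classical in
/-- The number of the primes `p ≤ x` at which the curves `E_j : y² = x³ + A_j x + B_j`, `(A_j, B_j) = m j`, have good reduction (of this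
model, `p` odd) and `#E_j(𝔽_p) / t_j` is prime, for all `j`. For `r = 1` this is the number `π_{E,t}(x)` of the question, `t = t 0` (up to
the prime 2). -/
noncomputable def count {r : ℕ} (m : Fin r → ℤ × ℤ) (t : Fin r → ℕ) (x : ℕ) : ℕ :=
  (((range (x + 1)).filter Nat.Prime).filter (fun p => ∀ j, PrimeQuotient p (t j) (m j).1 (m j).2)).card

open Classical in
/-- The proportion of the pairs `(a, b)` modulo `p` such that `y² = x³ + a x + b` has the property `PrimeQuotient` for `t`. -/
noncomputable def proportion (p : ℕ) (t : ℕ) : ℝ :=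
  (((range p ×ˢ range p).filter (fun ab : ℕ × ℕ => PrimeQuotient p t ab.1 ab.2)).card : ℝ) / (p : ℝ) ^ 2

/-- The expected number. -/
noncomputable def expected {r : ℕ} (t : Fin r → ℕ) (x : ℕ) : ℝ :=
  ∑ p ∈ (range (x + 1)).filter Nat.Prime, ∏ j, proportion p (t j)

/-- the exceptional tuples of curves in the box with the lower corner `M` and the side lengths `L` -/
def exceptional {r : ℕ} (C κ δ : ℝ) (N : ℕ) (M : Fin r → ℤ × ℤ) (L : Fin r → ℕ × ℕ) : Set (Fin r → ℤ × ℤ) :=
  {m | (∀ j, ((M j).1 ≤ (m j).1 ∧ (m j).1 < (M j).1 + (L j).1) ∧ (M j).2 ≤ (m j).2 ∧ (m j).2 < (M j).2 + (L j).2) ∧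
    ∃ x : ℕ, Real.log N ^ C ≤ x ∧ (x : ℝ) ≤ (N : ℝ) ^ κ ∧ ∃ t : Fin r → ℕ,
      √(max 1 (expected t x)) * (x : ℝ) ^ δ < |(count m t x : ℝ) - expected t x|}

theorem points_eq (p : ℕ) (A B : ℤ) : points p A B = Pool.Agent.X35.GV.points p A B := rfl

lemma pq_congr (p : ℕ) (t : ℕ) {A A' B B' : ℤ} (hA : A ≡ A' [ZMOD p]) (hB : B ≡ B' [ZMOD p]) :
    PrimeQuotient p t A B ↔ PrimeQuotient p t A' B' := by
  unfold PrimeQuotient
  rw [points_eq, points_eq, Pool.Agent.X35.GV.points_congr p hA hB, Pool.Agent.X35.GV.disc_congr p hA hB]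

lemma t_le {p x : ℕ} (hp : p ≤ x) {t : ℕ} {A B : ℤ} (h : PrimeQuotient p t A B) : t ≤ x ^ 2 + 1 := by
  have h1 := Pool.Agent.X35.GV.points_le p A B
  rw [← points_eq] at h1
  obtain ⟨-, l, hl, h2⟩ := h
  have h3 : t * 1 ≤ t * l := Nat.mul_le_mul_left t hl.one_lt.le
  have h4 : p * p ≤ x ^ 2 := by rw [sq]; exact Nat.mul_le_mul hp hp
  omega

/-- Let `r ≥ 0` and `δ > 0`. There are `κ > 0`, `C > 0` and `N₀` such that for all `N ≥ N₀` and every box of integer vectors
`(A_1, B_1, ..., A_r, B_r)` with all side lengths at least `N` the following holds for all but at most a proportion `N ^ (-κ)` of the vectors of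
the box: for ALL integers `x` with `(log N) ^ C ≤ x ≤ N ^ κ` and ALL integers `t_1, ..., t_r ≥ 0`, the number of the primes `p ≤ x` such that
`#E_j(𝔽_p) / t_j` is prime for the curves `E_j : y² = x³ + A_j x + B_j` (`j = 1, ..., r`) differs from the expected number `V`, the sum over
`p ≤ x` of the product of the proportions of the curves over `𝔽_p` with this property for `t_j`, by at most `(max 1 V) ^ (1 / 2) x ^ δ`. -/
theorem result (r : ℕ) (δ : ℝ) (hδ : 0 < δ) :
    ∃ κ C : ℝ, 0 < κ ∧ 0 < C ∧ ∃ N₀ : ℕ, ∀ N : ℕ, N₀ ≤ N → ∀ (M : Fin r → ℤ × ℤ) (L : Fin r → ℕ × ℕ),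
      (∀ j, N ≤ (L j).1 ∧ N ≤ (L j).2) →
      ((exceptional C κ δ N M L).ncard : ℝ) ≤ (N : ℝ) ^ (-κ) * ∏ j, (((L j).1 : ℝ) * (L j).2) := by
  classical
  obtain ⟨κ, hκ, hκ1, N₀, H⟩ := Pool.Agent.X35.GV.lawP r δ (4 * r) 1 hδ le_rfl
  refine ⟨κ, 2 / δ, hκ, by positivity, N₀ + 3, fun N hN M L hL => ?_⟩
  have hfin : (exceptional (2 / δ) κ δ N M L).Finite := by
    refine (Set.Finite.pi' (t := fun j => (Set.Ico (M j).1 ((M j).1 + (L j).1)) ×ˢ (Set.Ico (M j).2 ((M j).2 + (L j).2)))
      (fun j => (Set.finite_Ico _ _).prod (Set.finite_Ico _ _))).subset ?_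
    rintro m ⟨hm, -⟩ j
    exact ⟨(hm j).1, (hm j).2⟩
  rw [Set.ncard_eq_toFinset_card _ hfin]
  refine H N (by omega) (Fin r → ℕ) (fun x => Fintype.piFinset (fun _ => range (x ^ 2 + 2))) ?_ ℕ
    (fun x _ => (range (x + 1)).filter Nat.Prime) (fun _ p => p) ?_ ?_ (fun t p j => PrimeQuotient p (t j)) ?_ M L hL _ ?_ ?_
  · intro x hx
    have hxr : (2 : ℝ) ≤ x := by exact_mod_cast hx
    rw [Fintype.card_piFinset, prod_const, card_univ, Fintype.card_fin, card_range]
    push_cast
    rw [show (4 * (r : ℝ)) = ((4 * r : ℕ) : ℝ) by push_cast; ring, Real.rpow_natCast, pow_mul]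
    apply pow_le_pow_left₀ (by positivity)
    have e3 : (4 : ℝ) ≤ (x : ℝ) ^ 2 := by nlinarith
    nlinarith
  · intro x l _ p hp
    rw [mem_filter, mem_range] at hp
    exact ⟨hp.2.two_le, by rw [pow_one]; omega⟩
  · intro x l _ p hp p' hp' hne
    rw [mem_filter] at hp hp'
    exact (Nat.coprime_primes hp.2 hp'.2).2 hne
  · intro x t _ p _ j u u' w w' hu hw
    exact pq_congr p (t j) hu hw
  · intro m hm j
    rw [Set.Finite.mem_toFinset] at hm
    exact hm.1 j
  · intro m hm
    rw [Set.Finite.mem_toFinset] at hm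
    obtain ⟨-, x, hx1, hx2, t, hlt⟩ := hm
    refine ⟨x, hx1, hx2, t, ?_, ?_⟩
    · rw [Fintype.mem_piFinset]
      by_contra hcon
      push Not at hcon
      obtain ⟨j, hj⟩ := hcon
      -- no prime up to `x` has this property
      have hno : ∀ p ∈ (range (x + 1)).filter Nat.Prime, ∀ A B : ℤ, ¬ PrimeQuotient p (t j) A B := by
        intro p hp A B h
        rw [mem_filter, mem_range] at hp
        apply hj
        rw [mem_range]
        have := t_le (by omega : p ≤ x) h
        omega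
      have h1 : count m t x = 0 := by
        unfold count
        rw [card_eq_zero, filter_eq_empty_iff]
        intro p hp h
        exact hno p hp _ _ (h j)
      have h2 : expected t x = 0 := by
        unfold expected
        refine sum_eq_zero fun p hp => ?_
        apply prod_eq_zero (mem_univ j)
        unfold proportion
        rw [filter_false_of_mem (fun ab _ => hno p hp _ _), card_empty, Nat.cast_zero, zero_div]
      rw [h1, h2] at hlt
      simp only [Nat.cast_zero, sub_self, abs_zero] at hlt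
      have h3 : 0 ≤ √(max 1 (0 : ℝ)) * (x : ℝ) ^ δ := by positivity
      linarith
    · have e1 : expected t x = ∑ p ∈ (range (x + 1)).filter Nat.Prime, ∏ j, Pool.Agent.X35.GV.prob2 p (PrimeQuotient p (t j)) := rfl
      have e2 : (((range (x + 1)).filter Nat.Prime).filter (fun p => ∀ j, PrimeQuotient p (t j) (m j).1 (m j).2)).card = count m t x := by
        unfold count
        congr 1
      rw [e1] at hlt
      simp only [e2]
      exact hlt

end Pool.Agent.Results.MP_b89fd0_nt.UniformQuotients
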